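import Pool.Agent.Helper88.MW.Defs

/-!
# Exponential sums (swarm MW, part EXP)
-/

set_option autoImplicit false

namespace Pool.Agent.Helper29.MW

open Polynomial Module Pool.Agent.Helper88.MW

variable {p : ℕ} [Fact p.Prime] {F : Type} [Field F] [Fintype F] [Algebra (ZMod p) F]

/-- the polynomial with the given coefficients -/
noncomputable def pol {n : ℕ} (c : Fin n → F) : F[X] := ∑ i, C (c i) * X ^ (i : ℕ)

omit [Fintype F] in
lemma pol_coeff {n : ℕ} (c : Fin n → F) (i : Fin n) : (pol c).coeff i = c i := by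
  rw [pol, finsetSum_coeff, Finset.sum_eq_single i]
  · simp
  · intro j _ hj
    rw [coeff_C_mul, coeff_X_pow, if_neg (fun h => hj (Fin.ext h.symm)), mul_zero]
  · intro h
    exact absurd (Finset.mem_univ i) h

omit [Fintype F] in
lemma pol_inj {n : ℕ} : Function.Injective (pol : (Fin n → F) → F[X]) := by
  intro c c' h
  funext i
  rw [← pol_coeff c, ← pol_coeff c', h]

omit [Fintype F] in
lemma pol_add {n : ℕ} (c c' : Fin n → F) : pol (c + c') = pol c + pol c' := by
  simp [pol, add_mul, Finset.sum_add_distrib]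

lemma pol_mem {n : ℕ} (c : Fin n → F) : pol c ∈ Vd p F n := by
  unfold Vd
  rw [Submodule.restrictScalars_mem, mem_degreeLT, degree_lt_iff_coeff_zero]
  intro k hk
  rw [pol, finsetSum_coeff]
  refine Finset.sum_eq_zero fun i _ => ?_
  rw [coeff_C_mul, coeff_X_pow, if_neg, mul_zero]
  have := i.2
  omega

lemma pol_surj {n : ℕ} {f : F[X]} (hf : f ∈ Vd p F n) : ∃ c : Fin n → F, pol c = f := by
  unfold Vd at hf
  rw [Submodule.restrictScalars_mem, mem_degreeLT] at hf
  refine ⟨fun i => f.coeff i, ?_⟩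
  ext k
  by_cases hk : k < n
  · exact pol_coeff (fun i : Fin n => f.coeff i) ⟨k, hk⟩
  · rw [pol, finsetSum_coeff, coeff_eq_zero_of_degree_lt (lt_of_lt_of_le hf (by
      exact_mod_cast not_lt.1 hk))]
    refine Finset.sum_eq_zero fun i _ => ?_
    rw [coeff_C_mul, coeff_X_pow, if_neg, mul_zero]
    intro h
    exact hk (h ▸ i.2)

/-- the phase -/
noncomputable def ph (j : ℕ) (l : F[X] →ₗ[ZMod p] ZMod p) (χ : F[X] →+ ZMod p) (x : F[X]) : ZMod p :=
  l (x ^ (p ^ j + 1)) + χ x

lemma ph_add (j : ℕ) (l : F[X] →ₗ[ZMod p] ZMod p) (χ : F[X] →+ ZMod p) (x h : F[X]) :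
    ph j l χ (x + h) = ph j l χ x + (ph j l χ h + (bet j l x h + bet j l h x)) := by
  have : CharP F p := charP_of_injective_algebraMap (algebraMap (ZMod p) F).injective p
  have h1 : (x + h) ^ (p ^ j + 1) =
      x ^ (p ^ j + 1) + h ^ (p ^ j + 1) + (x * h ^ (p ^ j) + h * x ^ (p ^ j)) := by
    rw [pow_succ, add_pow_char_pow, pow_succ, pow_succ]
    ring
  rw [ph, h1, map_add, map_add, map_add, ph, ph, bet_apply, bet_apply, map_add]
  ring

/-- the character `x ↦ e(B(x, h))` -/
noncomputable def chi (j : ℕ) (l : F[X] →ₗ[ZMod p] ZMod p) (n : ℕ) (h : F[X]) :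
    AddChar (Fin n → F) ℂ :=
  (ZMod.stdAddChar (N := p)).compAddMonoidHom
    { toFun := fun c => bet j l (pol c) h + bet j l h (pol c)
      map_zero' := by
        have : pol (0 : Fin n → F) = 0 := by simp [pol]
        rw [this]; simp
      map_add' := by
        intro c c'
        rw [pol_add, map_add, map_add, LinearMap.add_apply]
        ring }

lemma chi_apply (j : ℕ) (l : F[X] →ₗ[ZMod p] ZMod p) (n : ℕ) (h : F[X]) (c : Fin n → F) :
    chi j l n h c = ZMod.stdAddChar (bet j l (pol c) h + bet j l h (pol c)) := rfl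

lemma chi_eq (j : ℕ) (l : F[X] →ₗ[ZMod p] ZMod p) (n : ℕ) (h : F[X]) (hh : h ∈ Vd p F n)
    (h1 : chi j l n h = 1) : h ∈ H (bet j l) (Vd p F n) := by
  refine ⟨hh, ?_⟩
  rw [SetLike.mem_coe, LinearMap.mem_ker]
  ext v
  obtain ⟨c, hc⟩ := pol_surj v.2
  have h2 := DFunLike.congr_fun h1 c
  rw [chi_apply, AddChar.one_apply, hc] at h2
  have h3 : bet j l (v : F[X]) h + bet j l h v = 0 := by
    apply ZMod.injective_stdAddChar
    rw [h2, AddChar.map_zero_eq_one]
  change bet j l h v + bet j l v h = 0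
  rw [add_comm]; exact h3

/-- `|S|² ≤ q^n |H|` -/
theorem exp (j n : ℕ) (l : F[X] →ₗ[ZMod p] ZMod p) (χ : F[X] →+ ZMod p) :
    ‖∑ c : Fin n → F, ZMod.stdAddChar (l (pol c ^ (p ^ j + 1)) + χ (pol c))‖ ^ 2 ≤
      (Fintype.card F : ℝ) ^ n * (p : ℝ) ^ finrank (ZMod p) (H (bet j l) (Vd p F n)) := by
  classical
  set S : ℂ := ∑ c : Fin n → F, ZMod.stdAddChar (l (pol c ^ (p ^ j + 1)) + χ (pol c)) with hS
  have hS' : S = ∑ c : Fin n → F, ZMod.stdAddChar (ph j l χ (pol c)) := rfl
  have hconj : (starRingEnd ℂ) S = ∑ c : Fin n → F, ZMod.stdAddChar (-ph j l χ (pol c)) := by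
    rw [hS', map_sum]
    exact Finset.sum_congr rfl fun c _ => (AddChar.map_neg_eq_conj _ _).symm
  have h1 : S * (starRingEnd ℂ) S = ∑ h : Fin n → F, ZMod.stdAddChar (ph j l χ (pol h)) *
      ∑ c : Fin n → F, chi j l n (pol h) c := by
    rw [hconj, mul_comm, hS', Finset.sum_mul]
    have h2 : ∀ c : Fin n → F, ZMod.stdAddChar (-ph j l χ (pol c)) *
        ∑ c' : Fin n → F, ZMod.stdAddChar (ph j l χ (pol c')) =
        ∑ h : Fin n → F, ZMod.stdAddChar (ph j l χ (pol h)) * chi j l n (pol h) c := by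
      intro c
      rw [Finset.mul_sum, ← Equiv.sum_comp (Equiv.addLeft c)]
      refine Finset.sum_congr rfl fun h _ => ?_
      rw [Equiv.coe_addLeft, pol_add, ph_add, chi_apply, ← AddChar.map_add_eq_mul,
        ← AddChar.map_add_eq_mul]
      congr 1
      ring
    rw [Finset.sum_congr rfl fun c _ => h2 c, Finset.sum_comm]
    exact Finset.sum_congr rfl fun h _ => (Finset.mul_sum _ _ _).symm
  have h3 : ∀ h : Fin n → F, ‖(ZMod.stdAddChar (ph j l χ (pol h)) : ℂ) *
      ∑ c : Fin n → F, chi j l n (pol h) c‖ ≤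
      if pol h ∈ H (bet j l) (Vd p F n) then (Fintype.card F : ℝ) ^ n else 0 := by
    intro h
    rw [norm_mul, AddChar.norm_apply, one_mul]
    split_ifs with hh
    · refine (norm_sum_le _ _).trans ?_
      rw [Finset.sum_congr rfl fun c _ => AddChar.norm_apply _ _]
      simp
    · rw [AddChar.sum_eq_zero_of_ne_one fun h1 => hh (chi_eq j l n _ (pol_mem h) h1), norm_zero]
  have h4 : ‖S‖ ^ 2 = ‖S * (starRingEnd ℂ) S‖ := by
    rw [norm_mul, RCLike.norm_conj, sq]
  rw [h4, h1]
  refine (norm_sum_le _ _).trans ((Finset.sum_le_sum fun h _ => h3 h).trans ?_)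
  rw [← Finset.sum_filter, Finset.sum_const, nsmul_eq_mul, mul_comm]
  refine mul_le_mul_of_nonneg_left ?_ (by positivity)
  have hfin : Finite (Vd p F n) := by
    refine Finite.of_surjective (fun c : Fin n → F => (⟨pol c, pol_mem c⟩ : Vd p F n)) ?_
    rintro ⟨f, hf⟩
    obtain ⟨c, hc⟩ := pol_surj hf
    exact ⟨c, Subtype.ext hc⟩
  have hfin2 : Finite (H (bet j l) (Vd p F n)) :=
    Finite.of_injective (fun x => (⟨x.1, x.2.1⟩ : Vd p F n)) fun x y h =>
      Subtype.ext (Subtype.mk.inj h)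
  have hm : Module.Finite (ZMod p) (H (bet j l) (Vd p F n)) := Module.Finite.of_finite
  have hcard : Nat.card (H (bet j l) (Vd p F n)) =
      p ^ finrank (ZMod p) (H (bet j l) (Vd p F n)) := by
    rw [Module.natCard_eq_pow_finrank (K := ZMod p), Nat.card_zmod]
  have h5 : (Finset.univ.filter fun h : Fin n → F => pol h ∈ H (bet j l) (Vd p F n)).card ≤
      p ^ finrank (ZMod p) (H (bet j l) (Vd p F n)) := by
    rw [← hcard, ← Fintype.card_subtype, ← Nat.card_eq_fintype_card]
    exact Nat.card_le_card_of_injective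
      (fun x => (⟨pol x.1, x.2⟩ : H (bet j l) (Vd p F n))) fun x y h =>
        Subtype.ext (pol_inj (Subtype.mk.inj h))
  exact_mod_cast h5

end Pool.Agent.Helper29.MW
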