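import Pool.Agent.Helper88.MW.Defs

/-!
# Exact linear algebra (swarm MW, part LA1)
-/

set_option autoImplicit false

namespace Pool.Agent.Helper29.MW

open Polynomial Module Pool.Agent.Helper88.MW

variable {K : Type} [Field K] {E : Type} [AddCommGroup E] [Module K E]

lemma rk {M : Type} [AddCommGroup M] [Module K M] (f : E →ₗ[K] M) (S : Submodule K E)
    [FiniteDimensional K S] :
    finrank K (S.map f) + finrank K (S ⊓ LinearMap.ker f : Submodule K E) = finrank K S := by
  have h1 := LinearMap.finrank_range_add_finrank_ker (f.domRestrict S)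
  have h2 : LinearMap.range (f.domRestrict S) = S.map f := by
    rw [LinearMap.range_domRestrict]
  have h3 : LinearMap.ker (f.domRestrict S) = (LinearMap.ker f).comap S.subtype := by
    ext x
    simp
  have h4 : ((LinearMap.ker f).comap S.subtype).map S.subtype = S ⊓ LinearMap.ker f :=
    Submodule.map_comap_subtype _ _
  rw [h2, h3] at h1
  rw [← h1, ← h4, Submodule.finrank_map_subtype_eq]

variable (β : E →ₗ[K] E →ₗ[K] K) (V : Submodule K E)

lemma aL_apply (x : E) (v : V) : aL β V x v = β x v := rfl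

lemma aR_apply (x : E) (v : V) : aR β V x v = β v x := rfl

lemma mem_succ {i : ℕ} {y : E} : y ∈ A β V (i + 1) ↔
    y ∈ V ∧ ∃ x ∈ A β V i, ∀ v ∈ V, β x v = β v y := by
  change y ∈ V ⊓ ((A β V i).map (aL β V)).comap (aR β V) ↔ _
  rw [Submodule.mem_inf, Submodule.mem_comap, Submodule.mem_map]
  refine and_congr_right fun _ => exists_congr fun x => and_congr_right fun _ => ?_
  constructor
  · intro h v hv
    exact LinearMap.congr_fun h ⟨v, hv⟩
  · intro h
    ext v
    exact h v v.2

theorem la_mono (i : ℕ) : A β V i ≤ A β V (i + 1) := by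
  induction i with
  | zero => exact bot_le
  | succ i ih =>
    intro y hy
    obtain ⟨h1, x, hx, h2⟩ := (mem_succ β V).1 hy
    exact (mem_succ β V).2 ⟨h1, x, ih hx, h2⟩

theorem la_le (i : ℕ) : A β V i ≤ V := by
  cases i with
  | zero => exact bot_le
  | succ i =>
    intro y hy
    exact ((mem_succ β V).1 hy).1

theorem la_map (i : ℕ) :
    (A β V i).map (aL β V + aR β V) = (A β V i).map (aL β V) := by
  induction i with
  | zero =>
    change (⊥ : Submodule K E).map _ = (⊥ : Submodule K E).map _
    rw [Submodule.map_bot, Submodule.map_bot]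
  | succ i ih =>
    apply le_antisymm
    · rintro _ ⟨y, hy, rfl⟩
      obtain ⟨h1, x, hx, h2⟩ := (mem_succ β V).1 hy
      refine ⟨y + x, Submodule.add_mem _ hy (la_mono β V i hx), ?_⟩
      rw [map_add, LinearMap.add_apply]
      congr 1
      ext v
      exact h2 v v.2
    · rintro _ ⟨y, hy, rfl⟩
      obtain ⟨h1, x, hx, h2⟩ := (mem_succ β V).1 hy
      have h3 : aL β V x ∈ (A β V i).map (aL β V) := ⟨x, hx, rfl⟩
      rw [← ih] at h3
      obtain ⟨z, hz, hz2⟩ := h3
      refine ⟨y - z, Submodule.sub_mem _ hy (la_mono β V i hz), ?_⟩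
      rw [map_sub, hz2, LinearMap.add_apply]
      have h4 : aL β V x = aR β V y := by
        ext v
        exact h2 v v.2
      rw [h4, add_sub_cancel_right]

theorem la_finrank [FiniteDimensional K V] (i : ℕ) :
    finrank K (A β V i ⊓ H β V : Submodule K E) = finrank K (A β V i ⊓ Z β V : Submodule K E) := by
  have hf : FiniteDimensional K (A β V i) := Submodule.finiteDimensional_of_le (la_le β V i)
  have h1 : A β V i ⊓ H β V = A β V i ⊓ LinearMap.ker (aL β V + aR β V) := by
    rw [H, ← inf_assoc, inf_eq_left.2 (la_le β V i)]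
  have h2 : A β V i ⊓ Z β V = A β V i ⊓ LinearMap.ker (aL β V) := by
    rw [Z, ← inf_assoc, inf_eq_left.2 (la_le β V i)]
  have h3 := rk (aL β V + aR β V) (A β V i)
  have h4 := rk (aL β V) (A β V i)
  rw [la_map] at h3
  rw [h1, h2]
  omega

theorem la_orth (i : ℕ) {v w : E} (hw : w ∈ A β V i) (hv : v ∈ O β V (A β V i)) :
    β w v = 0 ∧ β v w = 0 := by
  induction i generalizing w with
  | zero =>
    have : w = 0 := (Submodule.mem_bot K).1 hw
    subst this
    simp
  | succ i ih =>
    obtain ⟨hv1, hv2⟩ := hv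
    obtain ⟨h1, x, hx, h2⟩ := (mem_succ β V).1 hw
    have h3 := ih hx ⟨hv1, fun w hw => hv2 w (la_mono β V i hw)⟩
    have h4 := h2 v hv1
    have h5 := hv2 w hw
    rw [← h4, h3.1, add_zero] at h5
    exact ⟨h5, by rw [← h4, h3.1]⟩

lemma la_zero (k : ℕ) : ∀ (i : ℕ) {x y : E}, x ∈ A β V i → y ∈ A β V k → β x y = 0 := by
  induction k with
  | zero =>
    intro i x y _ hy
    have : y = 0 := (Submodule.mem_bot K).1 hy
    subst this
    simp
  | succ k ih =>
    intro i x y hx hy
    cases i with
    | zero =>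
      have : x = 0 := (Submodule.mem_bot K).1 hx
      subst this
      simp
    | succ i =>
      have hxV := la_le β V _ hx
      obtain ⟨h1, y', hy', h2⟩ := (mem_succ β V).1 hy
      obtain ⟨h3, x', hx', h4⟩ := (mem_succ β V).1 hx
      rw [← h2 x hxV, ← h4 y' (la_le β V _ hy')]
      exact ih i hx' hy'

theorem la_iso (i : ℕ) : A β V i ≤ O β V (A β V i) := by
  intro v hv
  refine ⟨la_le β V i hv, fun w hw => ?_⟩
  rw [la_zero β V i i hw hv, la_zero β V i i hv hw, add_zero]

end Pool.Agent.Helper29.MW
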