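import Pool.Agent.Helper29.MW.LA1

/-!
# Dimension counts (swarm MW, part LA3)
-/

set_option autoImplicit false

namespace Pool.Agent.Helper29.MW

open Polynomial Module Pool.Agent.Helper88.MW

variable {K : Type} [Field K] {E : Type} [AddCommGroup E] [Module K E]

lemma o_le (β : E →ₗ[K] E →ₗ[K] K) (V W : Submodule K E) : O β V W ≤ V := fun _ h => h.1

/-- a vector of `H` whose form vanishes on the orthogonal complement is in the next space -/
lemma dual_aux (β : E →ₗ[K] E →ₗ[K] K) (V : Submodule K E) [FiniteDimensional K V] (i : ℕ)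
    {h : E} (hh : h ∈ H β V) (h0 : ∀ v ∈ O β V (A β V i), β h v = 0) : h ∈ A β V (i + 1) := by
  -- `aL h` is in the image of `A i` under `aL + aR`
  set S : Submodule K (Dual K V) := (A β V i).map (aL β V + aR β V) with hS
  have key : (aL β V h : Dual K V) ∈ S := by
    rw [← Subspace.dualCoannihilator_dualAnnihilator_eq (W := S), Submodule.mem_dualAnnihilator]
    intro v hv
    rw [Submodule.mem_dualCoannihilator] at hv
    refine h0 v ⟨v.2, fun w hw => ?_⟩
    have := hv ((aL β V + aR β V) w) ⟨w, hw, rfl⟩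
    exact this
  rw [hS, la_map] at key
  obtain ⟨x, hx, hx2⟩ := key
  have h1 : h ∈ V := hh.1
  have h2 : (aL β V + aR β V) h = 0 := hh.2
  refine (mem_succ β V).2 ⟨h1, -x, Submodule.neg_mem _ hx, fun v hv => ?_⟩
  have h3 : β x v = β h v := LinearMap.congr_fun hx2 ⟨v, hv⟩
  have h4 : β h v + β v h = 0 := LinearMap.congr_fun h2 ⟨v, hv⟩
  rw [map_neg, LinearMap.neg_apply, h3]
  linear_combination -h4

theorem la_count (β : E →ₗ[K] E →ₗ[K] K) (V : Submodule K E) [FiniteDimensional K V] (i : ℕ)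
    (H' X : Submodule K E) (hH : H' ≤ H β V)
    (hX : X ≤ O β V (A β V i)) (h0 : ∀ h ∈ H', ∀ x ∈ X, β h x = 0) :
    finrank K X + finrank K H' ≤
      finrank K (O β V (A β V i)) + finrank K (A β V (i + 1) ⊓ H β V : Submodule K E) := by
  have hHV : H' ≤ V := fun x hx => (hH hx).1
  have : FiniteDimensional K H' := Submodule.finiteDimensional_of_le hHV
  have : FiniteDimensional K (O β V (A β V i)) := Submodule.finiteDimensional_of_le (o_le β V _)
  have : FiniteDimensional K (A β V (i + 1)) := Submodule.finiteDimensional_of_le (la_le β V _)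
  set W := O β V (A β V i) with hW
  let f : E →ₗ[K] Dual K W := β.compl₂ W.subtype
  have h1 := rk f H'
  have h2 : H' ⊓ LinearMap.ker f ≤ A β V (i + 1) ⊓ H β V := by
    intro x hx
    refine ⟨dual_aux β V i (hH hx.1) fun v hv => ?_, hH hx.1⟩
    exact LinearMap.congr_fun (LinearMap.mem_ker.1 hx.2) (⟨v, hv⟩ : W)
  have h3 : H'.map f ≤ (X.comap W.subtype).dualAnnihilator := by
    rintro _ ⟨x, hx, rfl⟩
    rw [Submodule.mem_dualAnnihilator]
    intro w hw
    exact h0 x hx w hw
  have h4 := Subspace.finrank_add_finrank_dualAnnihilator_eq (X.comap W.subtype)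
  have h5 : finrank K (X.comap W.subtype) = finrank K X := by
    rw [← Submodule.finrank_map_subtype_eq, Submodule.map_comap_subtype, inf_eq_right.2 hX]
  have h6 := Submodule.finrank_mono h2
  have h7 := Submodule.finrank_mono h3
  omega

/-- The dimension of a sum of two images modulo `W`. -/
theorem la_sum (W H' : Submodule K E) [FiniteDimensional K W] [FiniteDimensional K H']
    (f g : E →ₗ[K] E) (P1 P2 : Submodule K E) [FiniteDimensional K P1] [FiniteDimensional K P2]
    (h1 : ∀ x ∈ H', ∀ y ∈ H', f x + g y ∈ W → x ∈ P1 ∧ y ∈ P2) :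
    finrank K W + 2 * finrank K H' ≤
      finrank K (W ⊔ H'.map f ⊔ H'.map g : Submodule K E) + finrank K P1 + finrank K P2 := by
  let Φ : (W × H' × H') →ₗ[K] E :=
    W.subtype.coprod ((f.comp H'.subtype).coprod (g.comp H'.subtype))
  have hΦ : ∀ z, Φ z = (z.1 : E) + (f z.2.1 + g z.2.2) := fun z => rfl
  have h2 := LinearMap.finrank_range_add_finrank_ker Φ
  rw [finrank_prod, finrank_prod] at h2
  have h3 : LinearMap.range Φ ≤ W ⊔ H'.map f ⊔ H'.map g := by
    rintro _ ⟨z, rfl⟩
    rw [hΦ, ← add_assoc]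
    exact Submodule.add_mem_sup (Submodule.add_mem_sup z.1.2 ⟨_, z.2.1.2, rfl⟩) ⟨_, z.2.2.2, rfl⟩
  have h4 := Submodule.finrank_mono h3
  have hk : ∀ z ∈ LinearMap.ker Φ, (z.2.1 : E) ∈ P1 ∧ (z.2.2 : E) ∈ P2 := by
    intro z hz
    apply h1 _ z.2.1.2 _ z.2.2.2
    have h5 : (z.1 : E) + (f z.2.1 + g z.2.2) = 0 := hz
    have h6 : f z.2.1 + g z.2.2 = -(z.1 : E) := by
      rw [eq_neg_iff_add_eq_zero, add_comm]; exact h5
    rw [h6]
    exact W.neg_mem z.1.2
  let Ψ : LinearMap.ker Φ →ₗ[K] P1 × P2 :=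
    LinearMap.prod
      (LinearMap.codRestrict P1 (H'.subtype.comp ((LinearMap.fst K H' H').comp
        ((LinearMap.snd K W (H' × H')).comp (LinearMap.ker Φ).subtype))) fun z => (hk z z.2).1)
      (LinearMap.codRestrict P2 (H'.subtype.comp ((LinearMap.snd K H' H').comp
        ((LinearMap.snd K W (H' × H')).comp (LinearMap.ker Φ).subtype))) fun z => (hk z z.2).2)
  have hΨ : Function.Injective Ψ := by
    rw [← LinearMap.ker_eq_bot, LinearMap.ker_eq_bot']
    intro z hz
    have e1 : (z.1.2.1 : E) = 0 := congrArg (fun q : P1 × P2 => (q.1 : E)) hz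
    have e2 : (z.1.2.2 : E) = 0 := congrArg (fun q : P1 × P2 => (q.2 : E)) hz
    have h5 : (z.1.1 : E) + (f z.1.2.1 + g z.1.2.2) = 0 := z.2
    rw [e1, e2, map_zero, map_zero, add_zero, add_zero] at h5
    ext
    · exact h5
    · exact e1
    · exact e2
  have h7 := LinearMap.finrank_le_finrank_of_injective hΨ
  rw [finrank_prod] at h7
  omega

end Pool.Agent.Helper29.MW
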